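import Pool.Agent.N889.WU.Stm

/-!
Project WU (helper889), leaf KP: the key proposition from GLU, GLOB and DEG.
-/

set_option autoImplicit false

open Polynomial IntermediateField

namespace Pool.Agent.N942.WU

open Pool.Agent.N889.WU

universe u

section aux

variable {k L : Type u} [Field k] [Field L] [Algebra k L]

theorem sepFin_of_eq {t π : L} (hπ : Transcendental k π) (h : k⟮π⟯ = k⟮t⟯)
    (ht : SepFin k t) : SepFin k π := by
  refine ⟨hπ, ?_, ?_⟩
  · rw [h]; exact ht.2.1
  · rw [h]; exact ht.2.2

theorem TrL_eq {t π : L} (h : k⟮π⟯ = k⟮t⟯) (x : L) : TrL k⟮π⟯ x = TrL k⟮t⟯ x := by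
  rw [h]

theorem adjoin_sub_const (t : L) (α : k) : k⟮t - algebraMap k L α⟯ = k⟮t⟯ := by
  apply le_antisymm
  · rw [adjoin_simple_le_iff]
    exact sub_mem (mem_adjoin_simple_self k t) (IntermediateField.algebraMap_mem _ α)
  · rw [adjoin_simple_le_iff]
    have h1 : t = (t - algebraMap k L α) + algebraMap k L α := by ring
    have h2 := mem_adjoin_simple_self k (t - algebraMap k L α)
    have h3 : (t - algebraMap k L α) + algebraMap k L α ∈ k⟮t - algebraMap k L α⟯ :=
      add_mem h2 (IntermediateField.algebraMap_mem _ α)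
    rwa [← h1] at h3

theorem adjoin_inv (t : L) : k⟮t⁻¹⟯ = k⟮t⟯ := by
  apply le_antisymm
  · rw [adjoin_simple_le_iff]
    exact inv_mem (mem_adjoin_simple_self k t)
  · rw [adjoin_simple_le_iff]
    have h2 := inv_mem (mem_adjoin_simple_self k t⁻¹)
    rwa [inv_inv] at h2

theorem trans_sub_const {t : L} (ht : Transcendental k t) (α : k) :
    Transcendental k (t - algebraMap k L α) := by
  intro h
  apply ht
  have h1 : t = (t - algebraMap k L α) + algebraMap k L α := by ring
  rw [h1]
  exact h.add (isAlgebraic_algebraMap α)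

theorem trans_inv {t : L} (ht : Transcendental k t) : Transcendental k t⁻¹ := by
  intro h
  apply ht
  have := h.inv
  rwa [inv_inv] at this

end aux

theorem t_KP (hGLU : S_GLU.{u}) (hGLOB : S_GLOB.{u}) (hDEG : S_DEG.{u}) : S_KP.{u} := by
  intro k L _ _ _ _ t D ht hD n hn z w y hadj hN
  obtain ⟨htr, hfin, hsep⟩ := ht
  have hadj' : IntermediateField.adjoin k⟮t⟯ ({z, w} : Set L) = ⊤ := by
    have h1 : (IntermediateField.adjoin k⟮t⟯ ({z, w} : Set L)).restrictScalars k = ⊤ := by
      rw [IntermediateField.adjoin_adjoin_left]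
      have : ({t} ∪ {z, w} : Set L) = {t, z, w} := by
        ext x; simp; tauto
      rw [this, hadj]
    rwa [IntermediateField.restrictScalars_eq_top_iff] at h1
  apply hDEG k⟮t⟯ L n hn z w y hadj'
  intro a b hab
  have hxN : ∀ A : ValuationSubring L, IsPlace k A → ∀ N : AddSubgroup L, Stable A D N →
      z ^ a * w ^ b * y ∈ N := fun A hA N hN' => hN A hA N hN' a b hab
  generalize hx : z ^ a * w ^ b * y = x at hxN ⊢
  have htne : t ≠ 0 := by
    rintro rfl
    exact htr (isAlgebraic_zero)
  have hg : TrL k⟮t⟯ x = 0 := by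
    apply hGLOB k L t htr
    · exact (Algebra.trace k⟮t⟯ L x).2
    · intro α
      have heq := adjoin_sub_const t α
      have hs := sepFin_of_eq (trans_sub_const htr α) heq ⟨htr, hfin, hsep⟩
      have hD' : D (t - algebraMap k L α) = 1 := by
        rw [map_sub, Derivation.map_algebraMap, sub_zero, hD]
      have := hGLU k L (t - algebraMap k L α) D hs hD' x hxN
      rwa [TrL_eq heq] at this
    · have heq := adjoin_inv (k := k) t
      have hs := sepFin_of_eq (trans_inv htr) heq ⟨htr, hfin, hsep⟩
      have hD' : ((-t ^ 2) • D) t⁻¹ = 1 := by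
        rw [Derivation.smul_apply, Derivation.leibniz_inv, hD]
        simp only [smul_eq_mul]
        field_simp
      have hy : ∀ A : ValuationSubring L, IsPlace k A → ∀ N : AddSubgroup L,
          Stable A ((-t ^ 2) • D) N → t ^ 2 * x ∈ N := by
        intro A hA N' hN'
        have hst : Stable A D (AddSubgroup.comap (AddMonoidHom.mulLeft (t ^ 2)) N') := by
          refine ⟨?_, ?_⟩
          · intro a ha m hm
            rw [AddSubgroup.mem_comap] at hm ⊢
            have := hN'.1 a ha _ hm
            have h2 : a * (AddMonoidHom.mulLeft (t ^ 2)) m = (AddMonoidHom.mulLeft (t ^ 2)) (a * m) := by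
              simp only [AddMonoidHom.coe_mulLeft]; ring
            rwa [h2] at this
          · intro a ha
            rw [AddSubgroup.mem_comap]
            have := N'.neg_mem (hN'.2 a ha)
            have h2 : -(((-t ^ 2) • D) a) = (AddMonoidHom.mulLeft (t ^ 2)) (D a) := by
              rw [Derivation.smul_apply, AddMonoidHom.coe_mulLeft, smul_eq_mul]; ring
            rwa [h2] at this
        have := hxN A hA _ hst
        rw [AddSubgroup.mem_comap] at this
        exact this
      have h3 := hGLU k L t⁻¹ ((-t ^ 2) • D) hs hD' (t ^ 2 * x) hy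
      rw [TrL_eq heq] at h3
      have h4 : TrL k⟮t⟯ (t ^ 2 * x) = t ^ 2 * TrL k⟮t⟯ x := by
        have hgen : t ^ 2 * x = (⟨t ^ 2, pow_mem (mem_adjoin_simple_self k t) 2⟩ : k⟮t⟯) • x := by
          rw [Algebra.smul_def]; rfl
        unfold TrL
        rw [hgen, map_smul, smul_eq_mul, map_mul]
        rfl
      rwa [h4] at h3
  unfold TrL at hg
  exact (map_eq_zero_iff _ (algebraMap k⟮t⟯ L).injective).1 hg

end Pool.Agent.N942.WU
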